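import Mathlib
import Pool.Agent.Q302.DJ.Asm
import Pool.Agent.Q302.DJ.TaskMetric
import Pool.Agent.Q302.DJ.TaskLim
import Pool.Agent.Q302.DJ.TaskSurj
import Pool.Agent.Q302.DJ.TaskCont
import Pool.Agent.Q302.DJ.TaskFast
import Pool.Agent.Q302.DJ.TaskACc
import Pool.Agent.Q302.DJ.TaskClos
import Pool.Agent.Q302.DJ.TaskNull
import Pool.Agent.Q302.DJ.TaskSub
import Pool.Agent.Q302.DJ.TaskZero
import Pool.Agent.Q302.DJ.TaskUniq
import Pool.Agent.Q302.DJ.TaskRestr
import Pool.Agent.Q302.DJ.TaskCongr
import Pool.Agent.Q302.DJ.TaskTrue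
import Pool.Agent.Q302.DJ.TaskGlue
import Pool.Agent.Q302.DJ.TaskSound
import Pool.Agent.Q302.DJ.Comp
import Pool.Agent.Q302.DJ.Conv
import Pool.Agent.Q302.DJ.Polish
import Pool.Agent.Q302.DJ.TaskBaire
import Pool.Agent.Q302.DJ.TaskMin
import Pool.Agent.Q302.DJ.TaskDeriv
import Pool.Agent.Q302.DJ.TaskMeasD
import Pool.Agent.Q302.DJ.TaskMeasA
import Pool.Agent.Q302.DJ.TaskMeasS
import Pool.Agent.Q302.DJ.TaskAn

/-!
# The set of the Denjoy integrable functions is `Π¹₂`

`M a b` is the space of the measurable functions on `[a, b]` modulo equality almost everywhere, with the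
metric `∫ min (1, |f - g|)`, whose topology is the one of convergence in measure. We prove that the set
`Den a b` of the Denjoy integrable functions (definition with `ACG_*`, as in the problem file) is `Π¹₂` in
`M a b`. It is known to be `Σ¹₂`; so it is `Δ¹₂`, which disproves Q2.

Idea: `f` is not Denjoy integrable if and only if some partial function `Φ` on the rational intervals is
closed under all the following steps: if `F` is continuous, `P` is closed, `F ∈ AC_*(P)`, `F' = f` almost
everywhere on `P` and `F` agrees with `Φ` on the rational intervals disjoint from `P`, then `Φ` is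
defined on the whole interval, with the value given by `F`; and is not defined at `[a, b]`. The true
integral is closed under the steps, and conversely, by the theorem of Baire, a `Φ` which is closed under
the steps extends the true integral if `f` is integrable.
-/

set_option autoImplicit false

namespace Pool.Agent.Results.MP_c24d14_lc.DenjoyIsPiOneTwo

open MeasureTheory Set Filter Topology
open Pool.Agent.Q302.DJ (osc ACStar ACGStar IsPrim M dM)

/-- The metric `∫ min (1, |f - g|)` of the space `M[a, b]`. -/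
noncomputable instance (a b : ℝ) : MetricSpace (M a b) :=
  Pool.Agent.Q302.DJ.metricM Pool.Agent.Q302.DJ.TaskMetric.main a b

/-- The set of the Denjoy integrable functions: there is `F ∈ ACG_*([a, b])` whose derivative exists and
is equal to `f` almost everywhere. -/
def Den (a b : ℝ) : Set (M a b) := {f | ∃ F, IsPrim f.rep F a b}

/-- `S` is `Σ¹₂`: it is the projection of a coanalytic subset `B` of the product with a Polish space. -/
def IsSigmaOneTwo {T : Type} [TopologicalSpace T] (S : Set T) : Prop :=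
  ∃ (Z : Type) (_ : TopologicalSpace Z) (_ : PolishSpace Z) (B : Set (T × Z)),
    AnalyticSet Bᶜ ∧ S = Prod.fst '' B

/-- `S` is `Π¹₂`: the complement is `Σ¹₂`. -/
def IsPiOneTwo {T : Type} [TopologicalSpace T] (S : Set T) : Prop := IsSigmaOneTwo Sᶜ

/-- **The set of the Denjoy integrable functions is `Π¹₂`** in the Polish space `M[a, b]`, whose topology
is the one of the convergence in measure. -/
theorem result (a b : ℝ) (hab : a < b) :
    IsPiOneTwo (Den a b) ∧ PolishSpace (M a b) ∧
      ∀ (u : ℕ → M a b) (f : M a b), Tendsto u atTop (𝓝 f) ↔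
        TendstoInMeasure (volume.restrict (Icc a b)) (fun n => (u n).rep) atTop f.rep := by
  have hUniq := Pool.Agent.Q302.DJ.TaskUniq.main Pool.Agent.Q302.DJ.TaskSub.main
    (Pool.Agent.Q302.DJ.TaskZero.main Pool.Agent.Q302.DJ.TaskNull.main Pool.Agent.Q302.DJ.TaskSub.main)
  have hGlue := Pool.Agent.Q302.DJ.TaskGlue.main Pool.Agent.Q302.DJ.TaskClos.main
    Pool.Agent.Q302.DJ.TaskRestr.main Pool.Agent.Q302.DJ.TaskCongr.main
  have hBaire := Pool.Agent.Q302.DJ.TaskBaire.main Pool.Agent.Q302.DJ.taskComp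
    Pool.Agent.Q302.DJ.TaskACc.main
  have hMin := Pool.Agent.Q302.DJ.TaskMin.main Pool.Agent.Q302.DJ.taskComp hBaire
    Pool.Agent.Q302.DJ.TaskCongr.main
  have hAn := Pool.Agent.Q302.DJ.TaskAn.main Pool.Agent.Q302.DJ.TaskMeasD.main
    (Pool.Agent.Q302.DJ.TaskMeasS.main Pool.Agent.Q302.DJ.TaskMeasA.main)
    Pool.Agent.Q302.DJ.TaskFast.main
  obtain ⟨B, hB, h⟩ := Pool.Agent.Q302.DJ.asm Pool.Agent.Q302.DJ.TaskMetric.main
    Pool.Agent.Q302.DJ.taskLim Pool.Agent.Q302.DJ.TaskSurj.main Pool.Agent.Q302.DJ.TaskCont.main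
    (Pool.Agent.Q302.DJ.TaskTrue.main hUniq) (Pool.Agent.Q302.DJ.TaskSound.main hGlue) hMin
    Pool.Agent.Q302.DJ.TaskDeriv.main hAn a b hab
  refine ⟨⟨Pool.Agent.Q302.DJ.Y, inferInstance, inferInstance, B, hB, h⟩,
    Pool.Agent.Q302.DJ.Polish.polish a b hab, fun u f => ?_⟩
  rw [← Pool.Agent.Q302.DJ.Conv.conv_iff]
  exact tendsto_iff_dist_tendsto_zero

end Pool.Agent.Results.MP_c24d14_lc.DenjoyIsPiOneTwo
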